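import Pool.Agent.H8.AV3.Stmts6
import Pool.Agent.H72.AV3B.JER

/-!
# Three-descent, row DSG: a cubic with discriminant zero over an algebraically closed field is
singular
-/

set_option autoImplicit false

namespace Pool.Agent.H25.AV3C

open Matrix Pool.AV3 Pool.AVR

namespace DSG

variable {K : Type} [Field K]

/-- A singular point. -/
def Sing (c : Fin 10 → K) : Prop :=
  ∃ v : Fin 3 → K, v ≠ 0 ∧ tev c v = 0 ∧ ∀ w, tder c v w = 0

theorem sing_of_eqv {g : Matrix (Fin 3) (Fin 3) K} {c c' : Fin 10 → K} (h : Eqv g c c')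
    (hs : Sing c') : Sing c := by
  obtain ⟨v, hv, h1, h2⟩ := hs
  refine ⟨g *ᵥ v, ?_, ?_, fun w => ?_⟩
  · intro h3
    apply hv
    have h4 : g⁻¹ *ᵥ (g *ᵥ v) = v := by
      rw [Matrix.mulVec_mulVec, Matrix.nonsing_inv_mul g h.1, Matrix.one_mulVec]
    rw [← h4, h3, Matrix.mulVec_zero]
  · rw [h.tev, h1, mul_zero]
  · have h4 : g *ᵥ (g⁻¹ *ᵥ w) = w := by
      rw [Matrix.mulVec_mulVec, Matrix.mul_nonsing_inv g h.1, Matrix.one_mulVec]
    rw [← h4, h.tder, h2, mul_zero]

theorem eqv_mk {g : Matrix (Fin 3) (Fin 3) K} (c : Fin 10 → K) (hg : g.det ≠ 0) :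
    Eqv g c ((g.det)⁻¹ • tsub c g) := by
  refine ⟨isUnit_iff_ne_zero.2 hg, ?_⟩
  rw [smul_smul, mul_inv_cancel₀ hg, one_smul]

theorem root4 [IsAlgClosed K] (a b c d : K) :
    ∃ r : K, r ^ 4 + a * r ^ 3 + b * r ^ 2 + c * r + d = 0 := by
  obtain ⟨r, hr⟩ := IsAlgClosed.exists_root
    (Polynomial.X ^ 4 + Polynomial.C a * Polynomial.X ^ 3 + Polynomial.C b * Polynomial.X ^ 2 +
      Polynomial.C c * Polynomial.X + Polynomial.C d : Polynomial K) (by
        have : (Polynomial.X ^ 4 + Polynomial.C a * Polynomial.X ^ 3 +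
          Polynomial.C b * Polynomial.X ^ 2 + Polynomial.C c * Polynomial.X +
          Polynomial.C d : Polynomial K).degree = 4 := by compute_degree!
        rw [this]
        decide)
  refine ⟨r, ?_⟩
  simpa [Polynomial.IsRoot] using hr

theorem root3 [IsAlgClosed K] (a b c : K) :
    ∃ r : K, r ^ 3 + a * r ^ 2 + b * r + c = 0 := by
  obtain ⟨r, hr⟩ := IsAlgClosed.exists_root
    (Polynomial.X ^ 3 + Polynomial.C a * Polynomial.X ^ 2 + Polynomial.C b * Polynomial.X +
      Polynomial.C c : Polynomial K) (by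
        have : (Polynomial.X ^ 3 + Polynomial.C a * Polynomial.X ^ 2 +
          Polynomial.C b * Polynomial.X + Polynomial.C c : Polynomial K).degree = 3 := by
          compute_degree!
        rw [this]
        decide)
  refine ⟨r, ?_⟩
  simpa [Polynomial.IsRoot] using hr

theorem root2 [IsAlgClosed K] (a b : K) : ∃ r : K, r ^ 2 + a * r + b = 0 := by
  obtain ⟨r, hr⟩ := IsAlgClosed.exists_root
    (Polynomial.X ^ 2 + Polynomial.C a * Polynomial.X + Polynomial.C b : Polynomial K) (by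
        have : (Polynomial.X ^ 2 + Polynomial.C a * Polynomial.X +
          Polynomial.C b : Polynomial K).degree = 2 := by
          compute_degree!
        rw [this]
        decide)
  refine ⟨r, ?_⟩
  simpa [Polynomial.IsRoot] using hr

/-- Splitting of cubics. -/
theorem split3 [IsAlgClosed K] (a b c : K) : ∃ r s t : K, a = -(r + s + t) ∧
    b = r * s + r * t + s * t ∧ c = -(r * s * t) := by
  obtain ⟨r, hr⟩ := root3 a b c
  obtain ⟨s, hs⟩ := root2 (a + r) (b + r * (a + r))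
  refine ⟨r, s, -(a + r) - s, by ring, ?_, ?_⟩
  · linear_combination hs
  · linear_combination hr - r * hs

/-- Splitting of quartics. -/
theorem split4 [IsAlgClosed K] (a b c d : K) : ∃ r s t u : K, a = -(r + s + t + u) ∧
    b = r * s + r * t + r * u + s * t + s * u + t * u ∧
    c = -(r * s * t + r * s * u + r * t * u + s * t * u) ∧ d = r * s * t * u := by
  obtain ⟨r, hr⟩ := root4 a b c d
  obtain ⟨s, t, u, h1, h2, h3⟩ := split3 (a + r) (b + r * (a + r))
    (c + r * (b + r * (a + r)))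
  refine ⟨r, s, t, u, ?_, ?_, ?_, ?_⟩
  · linear_combination h1
  · linear_combination h2 - r * h1
  · linear_combination h3 - r * h2
  · linear_combination hr - r * h3

theorem split3' [IsAlgClosed K] (k a b c : K) (hk : k ≠ 0) : ∃ r s t : K,
    a = -(k * (r + s + t)) ∧ b = k * (r * s + r * t + s * t) ∧ c = -(k * (r * s * t)) := by
  obtain ⟨r, s, t, h1, h2, h3⟩ := split3 (a / k) (b / k) (c / k)
  refine ⟨r, s, t, ?_, ?_, ?_⟩
  · rw [← mul_neg, ← h1]
    field_simp
  · rw [← h2]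
    field_simp
  · rw [← mul_neg, ← h3]
    field_simp

theorem split4' [IsAlgClosed K] (k a b c d : K) (hk : k ≠ 0) : ∃ r s t u : K,
    a = -(k * (r + s + t + u)) ∧
    b = k * (r * s + r * t + r * u + s * t + s * u + t * u) ∧
    c = -(k * (r * s * t + r * s * u + r * t * u + s * t * u)) ∧ d = k * (r * s * t * u) := by
  obtain ⟨r, s, t, u, h1, h2, h3, h4⟩ := split4 (a / k) (b / k) (c / k) (d / k)
  refine ⟨r, s, t, u, ?_, ?_, ?_, ?_⟩
  · rw [← mul_neg, ← h1]
    field_simp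
  · rw [← h2]
    field_simp
  · rw [← mul_neg, ← h3]
    field_simp
  · rw [← h4]
    field_simp

/-- The discriminant of the normal form vanishes only when the quartic has a double root. -/
theorem quartic [IsAlgClosed K] (h2 : (2 : K) ≠ 0) (A D E F G : K) (hAD : A ≠ 0 ∨ D ≠ 0)
    (h : dsc (fsg (2 : K)⁻¹ A D E F G) = 0) :
    ∃ x : K, (2 : K)⁻¹ ^ 2 * A ^ 2 * x ^ 4 + D * x ^ 3 + E * x ^ 2 + F * x + G = 0 ∧
      A ^ 2 * x ^ 3 + 3 * D * x ^ 2 + 2 * E * x + F = 0 := by
  obtain ⟨τ, hτ⟩ : ∃ τ : K, τ = (2 : K)⁻¹ := ⟨_, rfl⟩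
  rw [← hτ] at h ⊢
  have ht : 2 * τ = 1 := by
    rw [hτ]
    exact mul_inv_cancel₀ h2
  by_cases hA : A = 0
  · have hD : D ≠ 0 := by
      rcases hAD with h3 | h3
      · exact absurd hA h3
      · exact h3
    obtain ⟨r, s, t, h3, h4, h5⟩ := split3' D E F G hD
    have h6 : D ^ 6 * ((r - s) ^ 2 * (r - t) ^ 2 * (s - t) ^ 2) = 0 := by
      rw [← h]
      simp only [fsg, dsc, disc]
      rw [hA, h3, h4, h5]
      ring
    subst hA
    have h7 : ∃ x : K, (D * (x - r) * (x - s) * (x - t) = 0 ∧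
      D * ((x - r) * (x - s) + (x - r) * (x - t) + (x - s) * (x - t)) = 0) := by
      have h8 : (r - s) ^ 2 * (r - t) ^ 2 * (s - t) ^ 2 = 0 := by
        rcases mul_eq_zero.1 h6 with h9 | h9
        · exact absurd h9 (pow_ne_zero _ hD)
        · exact h9
      rcases mul_eq_zero.1 h8 with h9 | h9
      · rcases mul_eq_zero.1 h9 with h10 | h10
        · have h11 := sub_eq_zero.1 (pow_eq_zero_iff (two_ne_zero)|>.1 h10)
          subst h11
          exact ⟨r, by ring, by ring⟩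
        · have h11 := sub_eq_zero.1 (pow_eq_zero_iff (two_ne_zero)|>.1 h10)
          subst h11
          exact ⟨r, by ring, by ring⟩
      · have h11 := sub_eq_zero.1 (pow_eq_zero_iff (two_ne_zero)|>.1 h9)
        subst h11
        exact ⟨s, by ring, by ring⟩
    obtain ⟨x, h8, h9⟩ := h7
    refine ⟨x, ?_, ?_⟩
    · rw [h3, h4, h5]
      linear_combination h8
    · rw [h3, h4]
      linear_combination h9
  · obtain ⟨k, hk⟩ : ∃ k : K, k = τ ^ 2 * A ^ 2 := ⟨_, rfl⟩
    have hτ0 : τ ≠ 0 := by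
      intro h3
      rw [h3, mul_zero] at ht
      exact zero_ne_one ht
    have hk0 : k ≠ 0 := by
      rw [hk]
      exact mul_ne_zero (pow_ne_zero _ hτ0) (pow_ne_zero _ hA)
    have hA2 : A ^ 2 = 4 * k := by
      rw [hk]
      linear_combination (-(2 * τ + 1) * A ^ 2) * ht
    obtain ⟨r, s, t, u, h3, h4, h5, h6⟩ := split4' k D E F G hk0
    have h7 : k ^ 6 * ((r - s) ^ 2 * (r - t) ^ 2 * (r - u) ^ 2 * (s - t) ^ 2 * (s - u) ^ 2 *
        (t - u) ^ 2) = 0 := by
      rw [← h]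
      have e : fsg τ A D E F G = (E, D * F - 4 * k * G, k * F ^ 2 + D ^ 2 * G -
          4 * k * E * G) := by
        simp only [fsg, Prod.mk.injEq]
        refine ⟨trivial, ?_, ?_⟩
        · rw [hA2]
        · linear_combination (-(F ^ 2)) * hk - E * G * hA2
      rw [e]
      simp only [dsc, disc]
      rw [h3, h4, h5, h6]
      ring
    have h8 : ∃ x : K, (k * ((x - r) * (x - s) * (x - t) * (x - u)) = 0 ∧
      k * ((x - r) * (x - s) * (x - t) + (x - r) * (x - s) * (x - u) +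
        (x - r) * (x - t) * (x - u) + (x - s) * (x - t) * (x - u)) = 0) := by
      have h9 : (r - s) ^ 2 * (r - t) ^ 2 * (r - u) ^ 2 * (s - t) ^ 2 * (s - u) ^ 2 *
          (t - u) ^ 2 = 0 := by
        rcases mul_eq_zero.1 h7 with h9 | h9
        · exact absurd h9 (pow_ne_zero _ hk0)
        · exact h9
      simp only [mul_eq_zero, pow_eq_zero_iff two_ne_zero, sub_eq_zero] at h9
      rcases h9 with ((((h9 | h9) | h9) | h9) | h9) | h9
      · subst h9
        exact ⟨r, by ring, by ring⟩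
      · subst h9
        exact ⟨r, by ring, by ring⟩
      · subst h9
        exact ⟨r, by ring, by ring⟩
      · subst h9
        exact ⟨s, by ring, by ring⟩
      · subst h9
        exact ⟨s, by ring, by ring⟩
      · subst h9
        exact ⟨t, by ring, by ring⟩
    obtain ⟨x, h9, h10⟩ := h8
    refine ⟨x, ?_, ?_⟩
    · rw [← hk, h3, h4, h5, h6]
      linear_combination h9
    · rw [hA2, h3, h4, h5]
      linear_combination h10

/-- The normal form case. -/
theorem sing_sg [IsAlgClosed K] (h2 : (2 : K) ≠ 0) (A D E F G : K) (hAD : A ≠ 0 ∨ D ≠ 0)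
    (h : dsc (fsg (2 : K)⁻¹ A D E F G) = 0) : Sing (sg A D E F G) := by
  obtain ⟨x, h3, h4⟩ := quartic h2 A D E F G hAD h
  obtain ⟨τ, hτ⟩ : ∃ τ : K, τ = (2 : K)⁻¹ := ⟨_, rfl⟩
  rw [← hτ] at h3
  have ht : 2 * τ = 1 := by
    rw [hτ]
    exact mul_inv_cancel₀ h2
  refine ⟨![x, τ * A * x ^ 2, 1], ?_, ?_, fun w => ?_⟩
  · intro h5
    have h6 := congrFun h5 2
    simp at h6
  · simp only [tev, sg, Matrix.cons_val]
    linear_combination h3 - τ * A ^ 2 * x ^ 4 * ht
  · simp only [tder, sg, Matrix.cons_val]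
    linear_combination w 0 * h4 + (A ^ 2 * x ^ 3 * w 0 - A * x ^ 2 * w 1) * ht +
      w 2 * (3 * h3 - x * h4 - A ^ 2 * x ^ 4 * (2 * τ + 1) * ht)

/-- Transfer along an equivalence. -/
theorem transfer (h2 : (2 : K) ≠ 0) {g : Matrix (Fin 3) (Fin 3) K} {c c' : Fin 10 → K}
    (h : Eqv g c c') (hd : dsc (Jc (2 : K)⁻¹ c) = 0) : dsc (Jc (2 : K)⁻¹ c') = 0 := by
  obtain ⟨η, hη⟩ := Pool.Agent.H72.AV3B.jer_thm K (2 : K)⁻¹ (mul_inv_cancel₀ h2) g c c' h
  rw [hη, dsc_sh, hd]

/-- The case of a zero at the second unit vector whose tangent line is `Z = 0`. -/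
theorem sing_a [IsAlgClosed K] (h2 : (2 : K) ≠ 0) (c : Fin 10 → K) (h6 : c 6 = 0)
    (h3 : c 3 = 0) (h7 : c 7 ≠ 0) (hd : dsc (Jc (2 : K)⁻¹ c) = 0) : Sing c := by
  by_cases h01 : c 0 = 0 ∧ c 1 = 0
  · obtain ⟨h0, h1⟩ := h01
    obtain ⟨t, ht⟩ := root2 (c 4 / c 7) (c 2 / c 7)
    have ht' : c 7 * t ^ 2 + c 4 * t + c 2 = 0 := by
      field_simp at ht
      linear_combination ht
    refine ⟨![1, t, 0], ?_, ?_, fun w => ?_⟩
    · intro h5
      have h6 := congrFun h5 0
      simp at h6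
    · simp only [tev, Matrix.cons_val, h0, h1, h3, h6]
      ring
    · simp only [tder, Matrix.cons_val, h0, h1, h3, h6]
      linear_combination w 2 * ht'
  · obtain ⟨u, hu⟩ : ∃ u : K, u = -c 7 := ⟨_, rfl⟩
    have hu0 : u ≠ 0 := by
      rw [hu]
      exact neg_ne_zero.2 h7
    obtain ⟨τ, hτ⟩ : ∃ τ : K, τ = (2 : K)⁻¹ := ⟨_, rfl⟩
    have ht : 2 * τ = 1 := by
      rw [hτ]
      exact mul_inv_cancel₀ h2
    obtain ⟨q, hq⟩ : ∃ q : K, c 8 = u * q := ⟨c 8 / u, by field_simp⟩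
    obtain ⟨p, hp⟩ : ∃ p : K, c 9 = u * p - τ ^ 2 * u * q ^ 2 :=
      ⟨(c 9 + τ ^ 2 * u * q ^ 2) / u, by field_simp; ring⟩
    have hE : Eqv (!![u, 0, 0; τ * c 4, 1, τ * q; 0, 0, 1] : Matrix (Fin 3) (Fin 3) K) c
        (sg (c 1 * u) (c 0 * u ^ 2 + c 1 * u * τ * c 4)
          (c 1 * τ * u * q + c 2 * u + τ ^ 2 * c 4 ^ 2) (c 5 + τ * q * c 4) p) := by
      have hdet : (!![u, 0, 0; τ * c 4, 1, τ * q; 0, 0, 1] :
          Matrix (Fin 3) (Fin 3) K).det = u := by
        rw [Matrix.det_fin_three]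
        simp
      refine ⟨by rw [hdet]; exact isUnit_iff_ne_zero.2 hu0, ?_⟩
      rw [hdet]
      have hu' : c 7 = -u := by rw [hu, neg_neg]
      funext i
      fin_cases i <;>
      simp only [sg, tsub, tev, tder, Matrix.cons_val, Matrix.of_apply, Matrix.cons_val',
        Fin.zero_eta, Fin.mk_one, Fin.reduceFinMk, Pi.smul_apply, smul_eq_mul, h3, h6, hu', hq,
        hp]
      · ring
      · ring
      · linear_combination -u * c 4 ^ 2 * τ * ht
      · ring
      · linear_combination -u * c 4 * ht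
      · linear_combination -u * τ * q * c 4 * ht
      · ring
      · ring
      · linear_combination -u * q * ht
      · linear_combination -u * q ^ 2 * τ * ht
    refine sing_of_eqv hE (sing_sg h2 _ _ _ _ _ ?_ ?_)
    · by_cases h1 : c 1 = 0
      · right
        have h0 : c 0 ≠ 0 := fun h0 => h01 ⟨h0, h1⟩
        rw [h1]
        simpa using ⟨h0, hu0⟩
      · left
        exact mul_ne_zero h1 hu0
    · rw [← Jc_sg _ _ _ _ _ _ (mul_inv_cancel₀ h2)]
      exact transfer h2 hE hd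

theorem sing_b [IsAlgClosed K] (h2 : (2 : K) ≠ 0) (c : Fin 10 → K) (h6 : c 6 = 0)
    (hd : dsc (Jc (2 : K)⁻¹ c) = 0) : Sing c := by
  by_cases h7 : c 7 = 0
  · by_cases h3 : c 3 = 0
    · refine ⟨![0, 1, 0], ?_, ?_, fun w => ?_⟩
      · intro h5
        have h6 := congrFun h5 1
        simp at h6
      · simp only [tev, Matrix.cons_val, h6]
        ring
      · simp only [tder, Matrix.cons_val, h3, h6, h7]
        ring
    · have hdet : (!![0, 0, 1; 0, 1, 0; 1, 0, 0] : Matrix (Fin 3) (Fin 3) K).det = -1 := by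
        rw [Matrix.det_fin_three]
        simp
      have hE := eqv_mk (g := !![0, 0, 1; 0, 1, 0; 1, 0, 0]) c
        (by rw [hdet]; exact neg_ne_zero.2 one_ne_zero)
      refine sing_of_eqv hE (sing_a h2 _ ?_ ?_ ?_ (transfer h2 hE hd))
      · rw [hdet]
        simp [tsub, tev, h6]
      · rw [hdet]
        simp [tsub, tder, h7]
      · rw [hdet]
        simp [tsub, tder, h3]
  · have hdet : (!![c 7, 0, 0; 0, 1, 0; -c 3, 0, 1] : Matrix (Fin 3) (Fin 3) K).det = c 7 := by
      rw [Matrix.det_fin_three]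
      simp
    have hE := eqv_mk (g := !![c 7, 0, 0; 0, 1, 0; -c 3, 0, 1]) c (by rw [hdet]; exact h7)
    refine sing_of_eqv hE (sing_a h2 _ ?_ ?_ ?_ (transfer h2 hE hd))
    · rw [hdet]
      simp [tsub, tev, h6]
    · rw [hdet]
      simp [tsub, tder]
      right
      ring
    · rw [hdet]
      simp [tsub, tder, h7]

end DSG

open DSG in
/-- DSG. -/
theorem dsg_thm : DSGStmt := by
  intro K _ _ h2 c hd
  by_cases h6 : c 6 = 0
  · exact sing_b h2 c h6 hd
  · obtain ⟨t, ht⟩ := root3 (c 3 / c 6) (c 1 / c 6) (c 0 / c 6)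
    have ht' : c 6 * t ^ 3 + c 3 * t ^ 2 + c 1 * t + c 0 = 0 := by
      field_simp at ht
      linear_combination ht
    have hdet : (!![0, 1, 0; 1, t, 0; 0, 0, 1] : Matrix (Fin 3) (Fin 3) K).det = -1 := by
      rw [Matrix.det_fin_three]
      simp
    have hE := eqv_mk (g := !![0, 1, 0; 1, t, 0; 0, 0, 1]) c
      (by rw [hdet]; exact neg_ne_zero.2 one_ne_zero)
    refine sing_of_eqv hE (sing_b h2 _ ?_ (transfer h2 hE hd))
    rw [hdet]
    simp [tsub, tev]
    linear_combination -ht'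

end Pool.Agent.H25.AV3C
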