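import Pool.Agent.H8.AV3.Stmts5

/-!
# Module SNF3: Smith normal form over a valuation ring, 3 x 3
-/

set_option autoImplicit false

namespace Pool.Agent.H25.AV3C

open Polynomial Matrix Pool.AVR Pool.AV3

namespace SNF3

variable {K : Type} [Field K] {V : ValuationSubring K}

theorem gi_one : AVS.GI (V : Set K) (1 : Matrix (Fin 3) (Fin 3) K) := by
  refine ⟨?_, ?_, ?_, ?_⟩
  · intro i j
    rw [Matrix.one_apply]
    split_ifs
    · exact V.one_mem
    · exact V.zero_mem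
  · simp
  · simpa using V.one_mem
  · simpa using V.one_mem

theorem gi_mul {g h : Matrix (Fin 3) (Fin 3) K} (hg : AVS.GI (V : Set K) g)
    (hh : AVS.GI (V : Set K) h) : AVS.GI (V : Set K) (g * h) := by
  refine ⟨?_, ?_, ?_, ?_⟩
  · intro i j
    rw [Matrix.mul_apply, Fin.sum_univ_three]
    exact V.add_mem _ _ (V.add_mem _ _ (V.mul_mem _ _ (hg.1 _ _) (hh.1 _ _))
      (V.mul_mem _ _ (hg.1 _ _) (hh.1 _ _))) (V.mul_mem _ _ (hg.1 _ _) (hh.1 _ _))
  · rw [det_mul]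
    exact mul_ne_zero hg.2.1 hh.2.1
  · rw [det_mul]
    exact V.mul_mem _ _ hg.2.2.1 hh.2.2.1
  · rw [det_mul, mul_inv]
    exact V.mul_mem _ _ hg.2.2.2 hh.2.2.2

theorem ui_neg {x : K} (h : AVS.UI (V : Set K) x) : AVS.UI (V : Set K) (-x) := by
  refine ⟨neg_ne_zero.2 h.1, V.neg_mem _ h.2.1, ?_⟩
  rw [inv_neg]
  exact V.neg_mem _ h.2.2

theorem gi_col (σ : Equiv.Perm (Fin 3)) {g : Matrix (Fin 3) (Fin 3) K}
    (hg : AVS.GI (V : Set K) g) : AVS.GI (V : Set K) (g.submatrix id σ) := by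
  refine ⟨fun i j => hg.1 i (σ j), ?_⟩
  rw [Matrix.det_permute']
  rcases Int.units_eq_one_or (Equiv.Perm.sign σ) with h | h
  · rw [h]
    simpa using hg.2
  · rw [h]
    simpa using ui_neg hg.2

theorem gi_row (σ : Equiv.Perm (Fin 3)) {g : Matrix (Fin 3) (Fin 3) K}
    (hg : AVS.GI (V : Set K) g) : AVS.GI (V : Set K) (g.submatrix σ id) := by
  refine ⟨fun i j => hg.1 (σ i) j, ?_⟩
  rw [Matrix.det_permute]
  rcases Int.units_eq_one_or (Equiv.Perm.sign σ) with h | h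
  · rw [h]
    simpa using hg.2
  · rw [h]
    simpa using ui_neg hg.2

/-- `g` and `g'` are in the same double coset -/
def SR (V : ValuationSubring K) (g g' : Matrix (Fin 3) (Fin 3) K) : Prop :=
  ∃ k₁ k₂ : Matrix (Fin 3) (Fin 3) K, AVS.GI (V : Set K) k₁ ∧ AVS.GI (V : Set K) k₂ ∧
    g = k₁ * g' * k₂

theorem SR.trans {g g' g'' : Matrix (Fin 3) (Fin 3) K} (h : SR V g g') (h' : SR V g' g'') :
    SR V g g'' := by
  obtain ⟨k, l, hk, hl, rfl⟩ := h
  obtain ⟨k', l', hk', hl', rfl⟩ := h'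
  refine ⟨k * k', l' * l, gi_mul hk hk', gi_mul hl' hl, ?_⟩
  simp only [Matrix.mul_assoc]

theorem sr_perm (σ τ : Equiv.Perm (Fin 3)) (g : Matrix (Fin 3) (Fin 3) K) :
    SR V g (g.submatrix σ τ) := by
  refine ⟨(1 : Matrix (Fin 3) (Fin 3) K).submatrix σ.symm id,
    (1 : Matrix (Fin 3) (Fin 3) K).submatrix id τ.symm, gi_row _ gi_one, gi_col _ gi_one, ?_⟩
  ext i j
  simp only [Matrix.mul_apply, Matrix.submatrix_apply, id_eq, Matrix.one_apply]
  simp only [ite_mul, one_mul, zero_mul, mul_ite, mul_one, mul_zero, Finset.sum_ite_eq,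
    Finset.mem_univ, if_true]
  have h1 : ∀ x : Fin 3, (x = τ.symm j) = (τ.symm j = x) := fun x => propext eq_comm
  simp [h1]

theorem div_mem' {x y : K} (hy : y ≠ 0) (h : V.valuation x ≤ V.valuation y) : x / y ∈ V := by
  rw [← V.valuation_le_one_iff, map_div₀]
  have h0 : 0 < V.valuation y := zero_lt_iff.2 ((V.valuation.ne_zero_iff).2 hy)
  exact (div_le_one₀ h0).2 h

theorem gi_lower {a b c : K} (ha : a ∈ V) (hb : b ∈ V) (hc : c ∈ V) :
    AVS.GI (V : Set K) !![1, 0, 0; a, 1, 0; b, c, 1] := by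
  have hd : (!![1, 0, 0; a, 1, 0; b, c, 1] : Matrix (Fin 3) (Fin 3) K).det = 1 := by
    rw [Matrix.det_fin_three]
    simp
  refine ⟨?_, ?_⟩
  · intro i j
    fin_cases i <;> fin_cases j <;> simp [ha, hb, hc, V.one_mem, V.zero_mem]
  · rw [hd]
    exact ⟨one_ne_zero, V.one_mem, by simpa using V.one_mem⟩

theorem gi_upper {a b c : K} (ha : a ∈ V) (hb : b ∈ V) (hc : c ∈ V) :
    AVS.GI (V : Set K) !![1, a, b; 0, 1, c; 0, 0, 1] := by
  have hd : (!![1, a, b; 0, 1, c; 0, 0, 1] : Matrix (Fin 3) (Fin 3) K).det = 1 := by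
    rw [Matrix.det_fin_three]
    simp
  refine ⟨?_, ?_⟩
  · intro i j
    fin_cases i <;> fin_cases j <;> simp [ha, hb, hc, V.one_mem, V.zero_mem]
  · rw [hd]
    exact ⟨one_ne_zero, V.one_mem, by simpa using V.one_mem⟩

/-- first step: clear the first row and column -/
theorem step1 (g : Matrix (Fin 3) (Fin 3) K) (hg : g.det ≠ 0) :
    ∃ p x y z w : K, p ≠ 0 ∧ x / p ∈ V ∧ y / p ∈ V ∧ z / p ∈ V ∧ w / p ∈ V ∧
      SR V g !![p, 0, 0; 0, x, y; 0, z, w] := by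
  obtain ⟨⟨i₀, j₀⟩, hmax⟩ := Finite.exists_max (fun q : Fin 3 × Fin 3 => V.valuation (g q.1 q.2))
  have hp : g i₀ j₀ ≠ 0 := by
    intro h0
    apply hg
    have hz : g = 0 := by
      ext i j
      have := hmax (i, j)
      simp only [h0, map_zero] at this
      exact (V.valuation.zero_iff).1 (le_zero_iff.1 this)
    rw [hz]
    simp
  set h := g.submatrix (Equiv.swap 0 i₀) (Equiv.swap 0 j₀) with hh
  have hp' : h 0 0 = g i₀ j₀ := by simp [hh]
  have hd : ∀ i j, h i j / h 0 0 ∈ V := by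
    intro i j
    rw [hp']
    exact div_mem' hp (hmax (Equiv.swap 0 i₀ i, Equiv.swap 0 j₀ j))
  have hp0 : h 0 0 ≠ 0 := by rw [hp']; exact hp
  have h2 : ∀ i j, (h i j - h i 0 * h 0 j / h 0 0) / h 0 0 ∈ V := by
    intro i j
    have e : (h i j - h i 0 * h 0 j / h 0 0) / h 0 0 =
        h i j / h 0 0 - (h i 0 / h 0 0) * (h 0 j / h 0 0) := by
      field_simp
    rw [e]
    exact sub_mem (hd _ _) (V.mul_mem _ _ (hd _ _) (hd _ _))
  have hsr : SR V g h := sr_perm _ _ g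
  refine ⟨h 0 0, h 1 1 - h 1 0 * h 0 1 / h 0 0, h 1 2 - h 1 0 * h 0 2 / h 0 0,
    h 2 1 - h 2 0 * h 0 1 / h 0 0, h 2 2 - h 2 0 * h 0 2 / h 0 0, hp0, h2 1 1, h2 1 2, h2 2 1,
    h2 2 2, hsr.trans ?_⟩
  refine ⟨!![1, 0, 0; h 1 0 / h 0 0, 1, 0; h 2 0 / h 0 0, 0, 1],
    !![1, h 0 1 / h 0 0, h 0 2 / h 0 0; 0, 1, 0; 0, 0, 1],
    gi_lower (hd 1 0) (hd 2 0) V.zero_mem, gi_upper (hd 0 1) (hd 0 2) V.zero_mem, ?_⟩
  clear_value h
  ext i j
  fin_cases i <;> fin_cases j <;>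
    simp [Matrix.mul_apply, Fin.sum_univ_three] <;> field_simp
  all_goals ring

/-- second step, `x` of minimal valuation -/
theorem step2a (p x y z w : K) (hd : x * w - y * z ≠ 0) (hx : x ≠ 0) (hy : y / x ∈ V)
    (hz : z / x ∈ V) (hw : w / x ∈ V) : ∃ r : K, r ≠ 0 ∧ r / x ∈ V ∧
      SR V !![p, 0, 0; 0, x, y; 0, z, w] !![p, 0, 0; 0, x, 0; 0, 0, r] := by
  refine ⟨w - z * y / x, ?_, ?_, ?_⟩
  · intro h
    apply hd
    have h1 : x * (w - z * y / x) = x * w - y * z := by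
      field_simp
    rw [← h1, h, mul_zero]
  · have e : (w - z * y / x) / x = w / x - (z / x) * (y / x) := by field_simp
    rw [e]
    exact sub_mem hw (V.mul_mem _ _ hz hy)
  · refine ⟨!![1, 0, 0; 0, 1, 0; 0, z / x, 1], !![1, 0, 0; 0, 1, y / x; 0, 0, 1],
      gi_lower V.zero_mem V.zero_mem hz, gi_upper V.zero_mem V.zero_mem hy, ?_⟩
    ext i j
    fin_cases i <;> fin_cases j <;>
      simp [Matrix.mul_apply, Fin.sum_univ_three] <;> field_simp
    all_goals ring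

/-- second step -/
theorem step2 (p x y z w : K) (hp : p ≠ 0) (hx : x / p ∈ V) (hy : y / p ∈ V) (hz : z / p ∈ V)
    (hw : w / p ∈ V) (hd : x * w - y * z ≠ 0) :
    ∃ q r : K, q ≠ 0 ∧ r ≠ 0 ∧ q / p ∈ V ∧ r / q ∈ V ∧
      SR V !![p, 0, 0; 0, x, y; 0, z, w] !![p, 0, 0; 0, q, 0; 0, 0, r] := by
  obtain ⟨⟨i₀, j₀⟩, hmax⟩ := Finite.exists_max
    (fun q : Fin 2 × Fin 2 => V.valuation ((![![x, y], ![z, w]] : Fin 2 → Fin 2 → K) q.1 q.2))
  have m00 := hmax (0, 0)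
  have m01 := hmax (0, 1)
  have m10 := hmax (1, 0)
  have m11 := hmax (1, 1)
  have hq : (![![x, y], ![z, w]] : Fin 2 → Fin 2 → K) i₀ j₀ ≠ 0 := by
    intro h0
    simp only [h0, map_zero] at m00 m01 m10 m11
    have e1 := (V.valuation.zero_iff).1 (le_zero_iff.1 m00)
    have e2 := (V.valuation.zero_iff).1 (le_zero_iff.1 m01)
    simp only [Matrix.cons_val] at e1 e2
    apply hd
    rw [e1, e2]
    ring
  fin_cases i₀ <;> fin_cases j₀ <;> simp only [Fin.zero_eta, Fin.mk_one, Fin.isValue,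
    Matrix.cons_val] at m00 m01 m10 m11 hq
  · obtain ⟨r, h1, h2, h3⟩ := step2a (V := V) p x y z w hd hq (div_mem' hq m01) (div_mem' hq m10)
      (div_mem' hq m11)
    exact ⟨x, r, hq, h1, hx, h2, h3⟩
  · have hs : SR V !![p, 0, 0; 0, x, y; 0, z, w] !![p, 0, 0; 0, y, x; 0, w, z] := by
      have := sr_perm (V := V) 1 (Equiv.swap 1 2) !![p, 0, 0; 0, x, y; 0, z, w]
      have e : (!![p, 0, 0; 0, x, y; 0, z, w] : Matrix (Fin 3) (Fin 3) K).submatrix
          (1 : Equiv.Perm (Fin 3)) (Equiv.swap 1 2) = !![p, 0, 0; 0, y, x; 0, w, z] := by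
        ext i j
        fin_cases i <;> fin_cases j <;> simp [Equiv.swap_apply_def]
      rwa [e] at this
    obtain ⟨r, h1, h2, h3⟩ := step2a (V := V) p y x w z (by
      intro h; apply hd; linear_combination -h) hq (div_mem' hq m00) (div_mem' hq m11)
      (div_mem' hq m10)
    exact ⟨y, r, hq, h1, hy, h2, hs.trans h3⟩
  · have hs : SR V !![p, 0, 0; 0, x, y; 0, z, w] !![p, 0, 0; 0, z, w; 0, x, y] := by
      have := sr_perm (V := V) (Equiv.swap 1 2) 1 !![p, 0, 0; 0, x, y; 0, z, w]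
      have e : (!![p, 0, 0; 0, x, y; 0, z, w] : Matrix (Fin 3) (Fin 3) K).submatrix
          (Equiv.swap 1 2) (1 : Equiv.Perm (Fin 3)) = !![p, 0, 0; 0, z, w; 0, x, y] := by
        ext i j
        fin_cases i <;> fin_cases j <;> simp [Equiv.swap_apply_def]
      rwa [e] at this
    obtain ⟨r, h1, h2, h3⟩ := step2a (V := V) p z w x y (by
      intro h; apply hd; linear_combination -h) hq (div_mem' hq m11) (div_mem' hq m00)
      (div_mem' hq m01)
    exact ⟨z, r, hq, h1, hz, h2, hs.trans h3⟩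
  · have hs : SR V !![p, 0, 0; 0, x, y; 0, z, w] !![p, 0, 0; 0, w, z; 0, y, x] := by
      have := sr_perm (V := V) (Equiv.swap 1 2) (Equiv.swap 1 2) !![p, 0, 0; 0, x, y; 0, z, w]
      have e : (!![p, 0, 0; 0, x, y; 0, z, w] : Matrix (Fin 3) (Fin 3) K).submatrix
          (Equiv.swap 1 2) (Equiv.swap 1 2) = !![p, 0, 0; 0, w, z; 0, y, x] := by
        ext i j
        fin_cases i <;> fin_cases j <;> simp [Equiv.swap_apply_def]
      rwa [e] at this
    obtain ⟨r, h1, h2, h3⟩ := step2a (V := V) p w z y x (by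
      intro h; apply hd; linear_combination h) hq (div_mem' hq m10) (div_mem' hq m01)
      (div_mem' hq m00)
    exact ⟨w, r, hq, h1, hw, h2, hs.trans h3⟩

theorem SR.det_ne {g g' : Matrix (Fin 3) (Fin 3) K} (h : SR V g g') (hg : g.det ≠ 0) :
    g'.det ≠ 0 := by
  obtain ⟨k, l, _, _, rfl⟩ := h
  intro h0
  apply hg
  rw [det_mul, det_mul, h0]
  ring

theorem pi_facts {π : K} (h : Dv (V : Set K) π) : π ∈ V ∧ π⁻¹ ∉ V := by
  have h1 := h.unif 1 V.one_mem one_ne_zero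
  have h2 : π⁻¹ ∉ V := by
    intro h3
    have h4 : (1 : K) / π ∈ (V : Set K) := by rw [one_div]; exact h3
    have h5 := h1.2 h4
    apply h5
    rw [inv_one]
    exact V.one_mem
  rcases V.mem_or_inv_mem π with h3 | h3
  · exact ⟨h3, h2⟩
  · exact absurd h3 h2

theorem nonneg {π u v : K} (h : Dv (V : Set K) π) (hu : AVS.UI (V : Set K) u)
    (hv : AVS.UI (V : Set K) v) (m : ℤ) (hm : π ^ m * u / v ∈ V) : 0 ≤ m := by
  obtain ⟨h1, h2⟩ := pi_facts h
  by_contra hneg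
  push_neg at hneg
  obtain ⟨k, hk⟩ : ∃ k : ℕ, m = -(k : ℤ) - 1 := ⟨(-m - 1).toNat, by omega⟩
  apply h2
  have h3 : π ^ m = (π ^ k)⁻¹ * π⁻¹ := by
    rw [hk, zpow_sub₀ h.pi_ne, _root_.zpow_neg, zpow_natCast, zpow_one, div_eq_mul_inv]
  have h4 : π⁻¹ = π ^ k * (π ^ m * u / v) * u⁻¹ * v := by
    rw [h3]
    have := h.pi_ne
    have hu0 := hu.1
    have hv0 := hv.1
    field_simp
  rw [h4]
  exact V.mul_mem _ _ (V.mul_mem _ _ (V.mul_mem _ _ (pow_mem h1 k) hm) hu.2.2) hv.2.1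

end SNF3

open SNF3 in
theorem SNF3_thm : SNF3Stmt := by
  intro K _ I π hD harch g hg
  obtain ⟨V, rfl⟩ := hD.val
  obtain ⟨p, x, y, z, w, hp, hx, hy, hz, hw, h1⟩ := step1 (V := V) g hg
  have hd := h1.det_ne hg
  have hd' : x * w - y * z ≠ 0 := by
    intro h
    apply hd
    rw [Matrix.det_fin_three]
    simp
    linear_combination p * h
  obtain ⟨q, r, hq, hr, hqp, hrq, h2⟩ := step2 (V := V) p x y z w hp hx hy hz hw hd'
  obtain ⟨k₁, k₂, hk₁, hk₂, hg'⟩ := h1.trans h2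
  obtain ⟨n, u0, hn⟩ : ∃ n : ℤ, ∃ u, AVS.UI (V : Set K) u ∧ p = π ^ n * u := by
    obtain ⟨n, hn⟩ := harch p hp
    refine ⟨n, _, hn, ?_⟩
    have := zpow_ne_zero n hD.pi_ne
    field_simp
  obtain ⟨n1, u1, hn1⟩ : ∃ n : ℤ, ∃ u, AVS.UI (V : Set K) u ∧ q = π ^ n * u := by
    obtain ⟨n, hn⟩ := harch q hq
    refine ⟨n, _, hn, ?_⟩
    have := zpow_ne_zero n hD.pi_ne
    field_simp
  obtain ⟨n2, u2, hn2⟩ : ∃ n : ℤ, ∃ u, AVS.UI (V : Set K) u ∧ r = π ^ n * u := by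
    obtain ⟨n, hn⟩ := harch r hr
    refine ⟨n, _, hn, ?_⟩
    have := zpow_ne_zero n hD.pi_ne
    field_simp
  obtain ⟨hu0, e0⟩ := hn
  obtain ⟨hu1, e1⟩ := hn1
  obtain ⟨hu2, e2⟩ := hn2
  have hπ := hD.pi_ne
  have ha : 0 ≤ n1 - n := by
    refine nonneg hD hu1 hu0 _ ?_
    rw [e0, e1] at hqp
    have : π ^ (n1 - n) * u1 / u0 = π ^ n1 * u1 / (π ^ n * u0) := by
      rw [zpow_sub₀ hπ]
      have := zpow_ne_zero n hπ
      have := hu0.1
      field_simp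
    rw [this]
    exact hqp
  have hb : 0 ≤ n2 - n1 := by
    refine nonneg hD hu2 hu1 _ ?_
    rw [e1, e2] at hrq
    have : π ^ (n2 - n1) * u2 / u1 = π ^ n2 * u2 / (π ^ n1 * u1) := by
      rw [zpow_sub₀ hπ]
      have := zpow_ne_zero n1 hπ
      have := hu1.1
      field_simp
    rw [this]
    exact hrq
  obtain ⟨a, ha'⟩ := Int.eq_ofNat_of_zero_le ha
  obtain ⟨b, hb'⟩ := Int.eq_ofNat_of_zero_le hb
  refine ⟨k₁, !![u0, 0, 0; 0, u1, 0; 0, 0, u2] * k₂, n, a, a + b, hk₁, gi_mul ?_ hk₂,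
    Nat.le_add_right _ _, ?_⟩
  · refine ⟨?_, ?_⟩
    · intro i j
      fin_cases i <;> fin_cases j <;>
        simp [hu0.2.1, hu1.2.1, hu2.2.1, V.zero_mem]
    · have hdet : (!![u0, 0, 0; 0, u1, 0; 0, 0, u2] : Matrix (Fin 3) (Fin 3) K).det =
          u0 * u1 * u2 := by
        rw [Matrix.det_fin_three]
        simp
      rw [hdet]
      refine ⟨mul_ne_zero (mul_ne_zero hu0.1 hu1.1) hu2.1,
        V.mul_mem _ _ (V.mul_mem _ _ hu0.2.1 hu1.2.1) hu2.2.1, ?_⟩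
      rw [mul_inv, mul_inv]
      exact V.mul_mem _ _ (V.mul_mem _ _ hu0.2.2 hu1.2.2) hu2.2.2
  · have hdiag : (!![p, 0, 0; 0, q, 0; 0, 0, r] : Matrix (Fin 3) (Fin 3) K) =
        π ^ n • (Matrix.diagonal ![1, π ^ a, π ^ (a + b)] * !![u0, 0, 0; 0, u1, 0; 0, 0, u2]) := by
      have e1' : q = π ^ n * (π ^ a * u1) := by
        rw [e1, show n1 = n + (a : ℤ) by omega, zpow_add₀ hπ, zpow_natCast]
        ring
      have e2' : r = π ^ n * (π ^ (a + b) * u2) := by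
        rw [e2, show n2 = n + ((a + b : ℕ) : ℤ) by push_cast; omega, zpow_add₀ hπ, zpow_natCast]
        ring
      ext i j
      rw [Matrix.smul_apply, Matrix.diagonal_mul]
      fin_cases i <;> fin_cases j <;> simp [e0, e1', e2']
    rw [hg', hdiag]
    simp only [Matrix.mul_smul, Matrix.smul_mul, Matrix.mul_assoc]

end Pool.Agent.H25.AV3C
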